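import Mathlib

open Filter Topology Metric

namespace Pool.Agent.Results.MP_ef197a_an.Conv

variable {E : Type} [NormedAddCommGroup E] [InnerProductSpace ℝ E]

/-- `p` is a nearest point of `C` to `z`. -/
def IsNearest (C : Set E) (z p : E) : Prop := p ∈ C ∧ ∀ q ∈ C, ‖z - p‖ ≤ ‖z - q‖

/-- The nearest-point projection onto `C` (a chosen nearest point of `C` to `z`). -/
noncomputable def proj (C : Set E) (z : E) : E := Classical.epsilon (IsNearest C z)

/-- The reflector `2 P_C - Id`. -/
noncomputable def reflector (C : Set E) (z : E) : E := (2 : ℝ) • proj C z - z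

/-- The Douglas-Rachford operator `(Id + R_B R_A) / 2`. -/
noncomputable def dr (A B : Set E) (z : E) : E :=
  (1 / 2 : ℝ) • (z + reflector B (reflector A z))

/-- The minimal displacement vector: the projection of `0` on the closure of `ran (Id - T)`. -/
noncomputable def minDisp (T : E → E) : E := proj (closure (Set.range fun z => z - T z)) 0

omit [InnerProductSpace ℝ E] in
lemma proj_spec {C : Set E} {z p : E} (h : IsNearest C z p) : IsNearest C z (proj C z) :=
  Classical.epsilon_spec ⟨p, h⟩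

lemma var_ineq {C : Set E} (hC : Convex ℝ C) {z p q : E} (h : IsNearest C z p) (hq : q ∈ C) :
    inner ℝ (z - p) (q - p) ≤ 0 := by
  by_contra hneg
  push Not at hneg
  set A := inner ℝ (z - p) (q - p) with hA
  set B := ‖q - p‖ ^ 2 with hB
  have hB0 : 0 ≤ B := by positivity
  have ht : 0 < A / (A + B) := div_pos hneg (by linarith)
  have ht1 : A / (A + B) ≤ 1 := by
    rw [div_le_one (by linarith)]
    linarith
  have h2 := h.2 _ (hC.add_smul_sub_mem h.1 hq ⟨ht.le, ht1⟩)
  have h3 := pow_le_pow_left₀ (norm_nonneg _) h2 2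
  have e : z - (p + (A / (A + B)) • (q - p)) = (z - p) - (A / (A + B)) • (q - p) := by abel
  rw [e, norm_sub_sq_real (z - p), inner_smul_right, norm_smul, mul_pow, Real.norm_eq_abs,
    sq_abs, ← hA, ← hB] at h3
  set t := A / (A + B) with htdef
  have h4 : t * (A + B) = A := by
    rw [htdef]
    field_simp
  nlinarith [mul_pos ht hneg, mul_pos ht (mul_pos ht hneg)]

lemma nearest_unique {C : Set E} (hC : Convex ℝ C) {z p q : E} (h : IsNearest C z p)
    (h' : IsNearest C z q) : p = q := by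
  have h1 := var_ineq hC h h'.1
  have h2 := var_ineq hC h' h.1
  have e : inner ℝ (z - p) (q - p) + inner ℝ (z - q) (p - q) = ‖q - p‖ ^ 2 := by
    rw [← real_inner_self_eq_norm_sq]
    have : p - q = -(q - p) := by abel
    rw [this, inner_neg_right, ← sub_eq_add_neg, ← inner_sub_left]
    congr 1
    abel
  have h3 : ‖q - p‖ ^ 2 ≤ 0 := by linarith
  have h4 : ‖q - p‖ = 0 := pow_eq_zero_iff (n := 2) (by norm_num) |>.1
    (le_antisymm h3 (sq_nonneg _))
  rw [norm_eq_zero, sub_eq_zero] at h4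
  exact h4.symm

lemma ball_nearest_out {a z : E} {r : ℝ} (hr : 0 ≤ r) (hz : r < ‖z - a‖) :
    IsNearest (closedBall a r) z (a + (r / ‖z - a‖) • (z - a)) := by
  have h0 : 0 < ‖z - a‖ := hr.trans_lt hz
  constructor
  · rw [mem_closedBall, dist_eq_norm, add_sub_cancel_left, norm_smul, Real.norm_eq_abs,
      abs_of_nonneg (by positivity), div_mul_cancel₀ _ h0.ne']
  · intro q hq
    rw [mem_closedBall, dist_eq_norm] at hq
    have e : z - (a + (r / ‖z - a‖) • (z - a)) = (1 - r / ‖z - a‖) • (z - a) := by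
      rw [sub_smul, one_smul]
      abel
    have h1 : 0 ≤ 1 - r / ‖z - a‖ := by
      rw [sub_nonneg, div_le_one h0]
      exact hz.le
    rw [e, norm_smul, Real.norm_eq_abs, abs_of_nonneg h1, sub_mul, one_mul,
      div_mul_cancel₀ _ h0.ne']
    have h2 : ‖z - a‖ ≤ ‖z - q‖ + ‖q - a‖ := norm_sub_le_norm_sub_add_norm_sub z q a
    linarith

lemma ball_exists {a : E} {r : ℝ} (hr : 0 ≤ r) (z : E) :
    ∃ c : ℝ, IsNearest (closedBall a r) z (a + c • (z - a)) := by
  rcases lt_or_ge r ‖z - a‖ with h | h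
  · exact ⟨_, ball_nearest_out hr h⟩
  · refine ⟨1, ?_⟩
    rw [one_smul, add_sub_cancel]
    exact ⟨by rwa [mem_closedBall, dist_eq_norm], fun q _ => by simp⟩

lemma ball_spec {a : E} {r : ℝ} (hr : 0 ≤ r) (z : E) :
    IsNearest (closedBall a r) z (proj (closedBall a r) z) := by
  obtain ⟨c, hc⟩ := ball_exists (a := a) hr z
  exact proj_spec hc

lemma ball_proj {a : E} {r : ℝ} (hr : 0 ≤ r) (z : E) :
    ∃ c : ℝ, proj (closedBall a r) z = a + c • (z - a) := by
  obtain ⟨c, hc⟩ := ball_exists (a := a) hr z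
  exact ⟨c, nearest_unique (convex_closedBall a r) (ball_spec hr z) hc⟩

lemma ball_proj_ray {a e : E} {r t : ℝ} (hr : 0 ≤ r) (he : ‖e‖ = 1) (ht : r ≤ t) :
    proj (closedBall a r) (a + t • e) = a + r • e := by
  refine nearest_unique (convex_closedBall a r) (ball_spec hr _) ⟨?_, fun q hq => ?_⟩
  · rw [mem_closedBall, dist_eq_norm, add_sub_cancel_left, norm_smul, he, Real.norm_eq_abs,
      abs_of_nonneg hr, mul_one]
  · rw [mem_closedBall, dist_eq_norm] at hq
    have e1 : a + t • e - (a + r • e) = (t - r) • e := by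
      rw [sub_smul]
      abel
    have h2 : ‖a + t • e - a‖ ≤ ‖a + t • e - q‖ + ‖q - a‖ :=
      norm_sub_le_norm_sub_add_norm_sub _ q a
    rw [add_sub_cancel_left, norm_smul, he, Real.norm_eq_abs, abs_of_nonneg (hr.trans ht)] at h2
    rw [e1, norm_smul, he, Real.norm_eq_abs, abs_of_nonneg (by linarith)]
    linarith

lemma dr_eq (A B : Set E) (z : E) :
    dr A B z = z + proj B (reflector A z) - proj A z := by
  simp only [dr]
  rw [reflector]
  set p := proj B (reflector A z)
  rw [reflector]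
  module

lemma mono {C : Set E} (hC : Convex ℝ C) {x y p q : E} (h : IsNearest C x p)
    (h' : IsNearest C y q) : 0 ≤ inner ℝ ((x - y) - (p - q)) (p - q) := by
  have h1 := var_ineq hC h h'.1
  have h2 := var_ineq hC h' h.1
  have e : inner ℝ ((x - y) - (p - q)) (p - q) =
      -(inner ℝ (x - p) (q - p) + inner ℝ (y - q) (p - q)) := by
    have : q - p = -(p - q) := by abel
    rw [this, inner_neg_right, neg_add, neg_neg, ← sub_eq_add_neg, ← inner_sub_left]
    congr 1
    abel
  linarith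

lemma firm {a b : E} {r s : ℝ} (hr : 0 ≤ r) (hs : 0 ≤ s) (x y : E) :
    ‖dr (closedBall a r) (closedBall b s) x - dr (closedBall a r) (closedBall b s) y‖ ^ 2 +
      ‖(x - dr (closedBall a r) (closedBall b s) x) -
        (y - dr (closedBall a r) (closedBall b s) y)‖ ^ 2 ≤ ‖x - y‖ ^ 2 := by
  have h1 := mono (convex_closedBall a r) (ball_spec hr x) (ball_spec hr y)
  have h2 := mono (convex_closedBall b s) (ball_spec hs (reflector (closedBall a r) x))
    (ball_spec hs (reflector (closedBall a r) y))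
  rw [dr_eq, dr_eq]
  set b1 := proj (closedBall b s) (reflector (closedBall a r) x)
  set b2 := proj (closedBall b s) (reflector (closedBall a r) y)
  simp only [reflector] at h2
  set a1 := proj (closedBall a r) x
  set a2 := proj (closedBall a r) y
  obtain ⟨X, hX⟩ : ∃ X, X = x - y := ⟨_, rfl⟩
  obtain ⟨α, hα⟩ : ∃ X, X = a1 - a2 := ⟨_, rfl⟩
  obtain ⟨β, hβ⟩ : ∃ X, X = b1 - b2 := ⟨_, rfl⟩
  have e1 : x + b1 - a1 - (y + b2 - a2) = X - (α - β) := by
    rw [hX, hα, hβ]
    abel
  have e2 : x - (x + b1 - a1) - (y - (y + b2 - a2)) = α - β := by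
    rw [hα, hβ]
    abel
  have e3 : (2 : ℝ) • a1 - x - ((2 : ℝ) • a2 - y) = (2 : ℝ) • α - X := by
    rw [hX, hα]
    module
  rw [e1, e2, ← hX]
  rw [← hX, ← hα] at h1
  rw [e3, ← hβ] at h2
  rw [norm_sub_sq_real X, norm_sub_sq_real α]
  simp only [inner_sub_left, inner_sub_right, inner_smul_left, real_inner_self_eq_norm_sq,
    conj_trivial] at h1 h2 ⊢
  linarith

lemma fejer {T : E → E} (hT : ∀ x y, ‖T x - T y‖ ^ 2 + ‖(x - T x) - (y - T y)‖ ^ 2 ≤ ‖x - y‖ ^ 2)
    {v f : E} (hf : ∀ n : ℕ, T (f - (n : ℝ) • v) = f - ((n : ℝ) + 1) • v) (x : E) (n : ℕ) :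
    ‖T^[n + 1] x + ((n + 1 : ℕ) : ℝ) • v - f‖ ^ 2 +
      ‖T^[n + 1] x + ((n + 1 : ℕ) : ℝ) • v - (T^[n] x + (n : ℝ) • v)‖ ^ 2 ≤
      ‖T^[n] x + (n : ℝ) • v - f‖ ^ 2 := by
  have h := hT (T^[n] x) (f - (n : ℝ) • v)
  rw [hf n] at h
  rw [Function.iterate_succ_apply', Nat.cast_succ]
  have e1 : T (T^[n] x) + ((n : ℝ) + 1) • v - f = T (T^[n] x) - (f - ((n : ℝ) + 1) • v) := by abel
  have e2 : T (T^[n] x) + ((n : ℝ) + 1) • v - (T^[n] x + (n : ℝ) • v) =
      -(T^[n] x - T (T^[n] x) - (f - (n : ℝ) • v - (f - ((n : ℝ) + 1) • v))) := by module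
  have e3 : T^[n] x + (n : ℝ) • v - f = T^[n] x - (f - (n : ℝ) • v) := by abel
  rw [e1, e2, e3, norm_neg]
  exact h

lemma seq_lemma {u w : ℕ → ℝ} (hu : ∀ n, 0 ≤ u n) (hw : ∀ n, 0 ≤ w n)
    (h : ∀ n, u (n + 1) + w n ≤ u n) :
    Antitone u ∧ (∃ L, Tendsto u atTop (𝓝 L)) ∧ Tendsto w atTop (𝓝 0) := by
  have ha : Antitone u := antitone_nat_of_succ_le fun n => by linarith [h n, hw n]
  have hl : Tendsto u atTop (𝓝 (⨅ n, u n)) :=
    tendsto_atTop_ciInf ha ⟨0, by rintro _ ⟨n, rfl⟩; exact hu n⟩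
  refine ⟨ha, ⟨_, hl⟩, ?_⟩
  have h2 := hl.sub ((tendsto_add_atTop_iff_nat 1).2 hl)
  rw [sub_self] at h2
  exact squeeze_zero hw (fun n => by linarith [h n]) h2

lemma real_conv {m : ℕ → ℝ} {L : ℝ} (h1 : Tendsto (fun n => m n ^ 2) atTop (𝓝 L))
    (h2 : Tendsto (fun n => (m (n + 1) - m n) ^ 2) atTop (𝓝 0)) :
    ∃ M, Tendsto m atTop (𝓝 M) := by
  have hL : 0 ≤ L := ge_of_tendsto' h1 fun n => sq_nonneg _
  have habs : Tendsto (fun n => |m n|) atTop (𝓝 (√L)) := by
    have := h1.sqrt
    simpa [Real.sqrt_sq_eq_abs] using this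
  rcases hL.eq_or_lt with h0 | h0
  · refine ⟨0, ?_⟩
    rw [← h0, Real.sqrt_zero] at habs
    exact (tendsto_zero_iff_abs_tendsto_zero m).2 habs
  · have e1 := h1.eventually (lt_mem_nhds (show L / 2 < L by linarith))
    have e2 := h2.eventually (gt_mem_nhds h0)
    obtain ⟨N, hN⟩ := eventually_atTop.1 (e1.and e2)
    have key : ∀ n, N ≤ n → 0 < m N * m n := by
      intro n hn
      induction n, hn using Nat.le_induction with
      | base => have := (hN N le_rfl).1; nlinarith
      | succ k hk ih =>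
        have a1 := (hN k hk).1
        have a2 := (hN k hk).2
        have a3 := (hN (k + 1) (by omega)).1
        have a4 : 0 < m k * m (k + 1) := by nlinarith
        have a5 := mul_pos ih a4
        by_contra hc
        push Not at hc
        have a6 : m N * m k * (m k * m (k + 1)) = (m N * m (k + 1)) * m k ^ 2 := by ring
        have a7 := mul_nonpos_of_nonpos_of_nonneg hc (sq_nonneg (m k))
        linarith
    rcases lt_or_ge 0 (m N) with hp | hp
    · refine ⟨√L, habs.congr' ?_⟩
      filter_upwards [eventually_ge_atTop N] with n hn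
      exact abs_of_pos ((mul_pos_iff_of_pos_left hp).1 (key n hn))
    · refine ⟨-√L, habs.neg.congr' ?_⟩
      filter_upwards [eventually_ge_atTop N] with n hn
      have := key n hn
      have h3 : m n < 0 := by
        by_contra hc
        push Not at hc
        have := mul_nonpos_of_nonpos_of_nonneg hp hc
        linarith
      rw [abs_of_neg h3, neg_neg]

lemma conv_meet [FiniteDimensional ℝ E] {a b p : E} {r s : ℝ} (hr : 0 ≤ r) (hs : 0 ≤ s)
    (hpa : p ∈ closedBall a r) (hpb : p ∈ closedBall b s) (x : E) :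
    ∃ q, Tendsto (fun n : ℕ => (dr (closedBall a r) (closedBall b s))^[n] x +
      (n : ℝ) • minDisp (dr (closedBall a r) (closedBall b s))) atTop (𝓝 q) := by
  set T := dr (closedBall a r) (closedBall b s) with hT
  have hf := firm (a := a) (b := b) hr hs
  rw [← hT] at hf
  have hp : T p = p := by
    have h1 : proj (closedBall a r) p = p :=
      nearest_unique (convex_closedBall a r) (ball_spec hr p) ⟨hpa, fun q _ => by simp⟩
    have h2 : proj (closedBall b s) p = p :=
      nearest_unique (convex_closedBall b s) (ball_spec hs p) ⟨hpb, fun q _ => by simp⟩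
    have h3 : reflector (closedBall a r) p = p := by
      rw [reflector, h1]
      module
    rw [hT, dr_eq, h3, h1, h2]
    abel
  have hv : minDisp T = 0 := by
    have h0 : (0 : E) ∈ closure (Set.range fun z => z - T z) :=
      subset_closure ⟨p, by simp [hp]⟩
    have h1 : IsNearest (closure (Set.range fun z => z - T z)) 0 0 := ⟨h0, fun q _ => by simp⟩
    have h2 := (proj_spec h1).2 0 h0
    simpa [minDisp] using h2
  simp only [hv, smul_zero, add_zero]
  have hfej : ∀ f, T f = f → ∀ n, ‖T^[n + 1] x - f‖ ^ 2 + ‖T^[n + 1] x - T^[n] x‖ ^ 2 ≤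
      ‖T^[n] x - f‖ ^ 2 := by
    intro f hf0 n
    simpa using fejer hf (v := 0) (f := f) (fun n => by simp [hf0]) x n
  obtain ⟨ha, -, hw⟩ := seq_lemma (u := fun n => ‖T^[n] x - p‖ ^ 2)
    (w := fun n => ‖T^[n + 1] x - T^[n] x‖ ^ 2) (fun _ => sq_nonneg _) (fun _ => sq_nonneg _)
    (hfej p hp)
  have hb : ∀ n, T^[n] x ∈ closedBall p ‖x - p‖ := by
    intro n
    rw [mem_closedBall, dist_eq_norm]
    have := ha (Nat.zero_le n)
    simp only [Function.iterate_zero, id] at this
    exact (abs_le_of_sq_le_sq' this (norm_nonneg _)).2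
  have : ProperSpace E := FiniteDimensional.proper_real E
  obtain ⟨q, -, φ, hφ, hq⟩ := (isCompact_closedBall p ‖x - p‖).tendsto_subseq hb
  have hcont : Continuous T := by
    refine (LipschitzWith.of_dist_le_mul (K := 1) fun y z => ?_).continuous
    rw [dist_eq_norm, dist_eq_norm, NNReal.coe_one, one_mul]
    have := hf y z
    refine (abs_le_of_sq_le_sq' ?_ (norm_nonneg _)).2
    linarith [sq_nonneg ‖(y - T y) - (z - T z)‖]
  have hq2 : T q = q := by
    have h1 : Tendsto (fun n => ‖T (T^[φ n] x) - T^[φ n] x‖ ^ 2) atTop (𝓝 (‖T q - q‖ ^ 2)) :=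
      ((((hcont.tendsto q).comp hq).sub hq).norm).pow 2
    have h2 : Tendsto (fun n => ‖T (T^[φ n] x) - T^[φ n] x‖ ^ 2) atTop (𝓝 0) := by
      have := hw.comp hφ.tendsto_atTop
      simpa only [Function.comp_def, Function.iterate_succ_apply'] using this
    have h3 := tendsto_nhds_unique h1 h2
    rwa [pow_eq_zero_iff (by norm_num), norm_eq_zero, sub_eq_zero] at h3
  obtain ⟨-, ⟨L, hL⟩, -⟩ := seq_lemma (u := fun n => ‖T^[n] x - q‖ ^ 2)
    (w := fun n => ‖T^[n + 1] x - T^[n] x‖ ^ 2) (fun _ => sq_nonneg _) (fun _ => sq_nonneg _)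
    (hfej q hq2)
  have h1 : Tendsto (fun n => ‖T^[φ n] x - q‖ ^ 2) atTop (𝓝 (‖q - q‖ ^ 2)) :=
    ((hq.sub tendsto_const_nhds).norm).pow 2
  have h2 := tendsto_nhds_unique (hL.comp hφ.tendsto_atTop) h1
  rw [sub_self, norm_zero] at h2
  refine ⟨q, tendsto_iff_norm_sub_tendsto_zero.2 ?_⟩
  have h3 := hL.sqrt
  rw [h2] at h3
  simpa using h3

lemma norm_comb {e w : E} (he : ‖e‖ = 1) (hw : inner ℝ e w = 0) (l m : ℝ) :
    ‖l • e + m • w‖ ^ 2 = l ^ 2 + (m * ‖w‖) ^ 2 := by
  rw [norm_add_sq_real, inner_smul_left, inner_smul_right, hw, norm_smul, norm_smul, he,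
    Real.norm_eq_abs, Real.norm_eq_abs, mul_one, mul_pow, mul_pow, sq_abs, sq_abs]
  ring

lemma conv_disj {a e : E} {r s D : ℝ} (hr : 0 ≤ r) (hs : 0 ≤ s) (he : ‖e‖ = 1)
    (hD : r + s ≤ D) (x : E) :
    ∃ q, Tendsto (fun n : ℕ => (dr (closedBall a r) (closedBall (a + D • e) s))^[n] x +
      (n : ℝ) • minDisp (dr (closedBall a r) (closedBall (a + D • e) s))) atTop (𝓝 q) := by
  set b := a + D • e with hb
  set T := dr (closedBall a r) (closedBall b s) with hT
  have hf := firm (a := a) (b := b) hr hs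
  rw [← hT] at hf
  have hray : ∀ t, r ≤ t → T (a + t • e) = a + (t + (D - r - s)) • e := by
    intro t ht
    have h1 := ball_proj_ray (a := a) hr he ht
    have h2 : reflector (closedBall a r) (a + t • e) = b + (D + t - 2 * r) • (-e) := by
      rw [reflector, h1, hb]
      module
    have h3 := ball_proj_ray (a := b) (e := -e) (t := D + t - 2 * r) hs (by rwa [norm_neg])
      (by linarith)
    rw [hT, dr_eq, h2, h3, h1, hb]
    module
  have hee : inner ℝ e e = (1 : ℝ) := by rw [real_inner_self_eq_norm_sq, he]; norm_num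
  have hv : minDisp T = (-(D - r - s)) • e := by
    have h0 : (-(D - r - s)) • e ∈ closure (Set.range fun z => z - T z) := by
      refine subset_closure ⟨a + r • e, ?_⟩
      simp only
      rw [hray r le_rfl]
      module
    have hK : ∀ w ∈ closure (Set.range fun z => z - T z), inner ℝ e w ≤ -(D - r - s) := by
      intro w hw
      refine closure_minimal (t := {w : E | inner ℝ e w ≤ -(D - r - s)}) ?_
        (isClosed_le (by fun_prop) continuous_const) hw
      rintro _ ⟨z, rfl⟩
      have h1 := (ball_spec (a := a) hr z).1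
      have h2 := (ball_spec (a := b) hs (reflector (closedBall a r) z)).1
      simp only [Set.mem_ofPred_eq]
      rw [hT, dr_eq]
      set α := proj (closedBall a r) z
      set β := proj (closedBall b s) (reflector (closedBall a r) z)
      rw [mem_closedBall, dist_eq_norm] at h1 h2
      have e1 : z - (z + β - α) = (α - a) - (β - b) - D • e := by
        rw [hb]
        abel
      have h3 := abs_real_inner_le_norm e (α - a)
      have h4 := abs_real_inner_le_norm e (β - b)
      rw [he, one_mul, abs_le] at h3 h4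
      rw [e1, inner_sub_right, inner_sub_right e (α - a), inner_smul_right, hee]
      linarith [h3.2, h4.1]
    have hn : ‖(0 : E) - (-(D - r - s)) • e‖ = D - r - s := by
      rw [zero_sub, norm_neg, norm_smul, he, mul_one, norm_neg, Real.norm_eq_abs,
        abs_of_nonneg (by linarith)]
    have h1 : IsNearest (closure (Set.range fun z => z - T z)) 0 ((-(D - r - s)) • e) := by
      refine ⟨h0, fun q hq => ?_⟩
      have h3 := abs_real_inner_le_norm e q
      rw [he, one_mul, abs_le] at h3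
      rw [hn, zero_sub, norm_neg]
      linarith [h3.1, hK q hq]
    have h2 := (proj_spec h1).2 _ h0
    have h3 := hK _ (proj_spec h1).1
    rw [hn, zero_sub, norm_neg] at h2
    change ‖minDisp T‖ ≤ _ at h2
    change inner ℝ e (minDisp T) ≤ _ at h3
    have h4 : ‖(-(D - r - s)) • e - minDisp T‖ ^ 2 ≤ 0 := by
      rw [norm_sub_sq_real, inner_smul_left, norm_smul, he, Real.norm_eq_abs, mul_one, sq_abs,
        conj_trivial]
      have h5 := pow_le_pow_left₀ (norm_nonneg _) h2 2
      have h6 : 0 ≤ D - r - s := by linarith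
      nlinarith
    have h5 : ‖(-(D - r - s)) • e - minDisp T‖ = 0 := pow_eq_zero_iff (n := 2) (by norm_num) |>.1
      (le_antisymm h4 (sq_nonneg _))
    rw [norm_eq_zero, sub_eq_zero] at h5
    exact h5.symm
  rw [hv]
  set v := (-(D - r - s)) • e with hvdef
  set w := (x - a) - (inner ℝ e (x - a) : ℝ) • e with hw
  have hew : inner ℝ e w = (0 : ℝ) := by
    rw [hw, inner_sub_right e (x - a), inner_smul_right, hee]
    ring
  have hinv : ∀ n : ℕ, ∃ l m : ℝ, T^[n] x = a + l • e + m • w := by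
    intro n
    induction n with
    | zero =>
      refine ⟨inner ℝ e (x - a), 1, ?_⟩
      rw [hw, Function.iterate_zero, id]
      module
    | succ k ih =>
      obtain ⟨l, m, h⟩ := ih
      rw [Function.iterate_succ_apply', h]
      obtain ⟨c, hc⟩ := ball_proj (a := a) hr (a + l • e + m • w)
      obtain ⟨c', hc'⟩ := ball_proj (a := b) hs (reflector (closedBall a r) (a + l • e + m • w))
      refine ⟨l + D + c' * (2 * c * l - l - D) - c * l, m + c' * (2 * c * m - m) - c * m, ?_⟩
      rw [hT, dr_eq, hc', reflector, hc, hb]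
      module
  have hinv2 : ∀ n : ℕ, ∃ l m : ℝ, T^[n] x + (n : ℝ) • v = a + l • e + m • w := by
    intro n
    obtain ⟨l, m, h⟩ := hinv n
    refine ⟨l - n * (D - r - s), m, ?_⟩
    rw [h, hvdef]
    module
  choose l m hlm using hinv2
  have hfej : ∀ t, r ≤ t → ∀ n, ((l (n + 1) - t) ^ 2 + (m (n + 1) * ‖w‖) ^ 2) +
      ((l (n + 1) - l n) ^ 2 + ((m (n + 1) - m n) * ‖w‖) ^ 2) ≤
      (l n - t) ^ 2 + (m n * ‖w‖) ^ 2 := by
    intro t ht n
    have h := fejer hf (v := v) (f := a + t • e) (fun k => by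
      have e1 : a + t • e - (k : ℝ) • v = a + (t + k * (D - r - s)) • e := by
        rw [hvdef]
        module
      have h0 : 0 ≤ (k : ℝ) * (D - r - s) := mul_nonneg (Nat.cast_nonneg k) (by linarith)
      rw [e1, hray _ (by linarith), hvdef]
      module) x n
    rw [hlm, hlm] at h
    have e1 : ∀ k, a + l k • e + m k • w - (a + t • e) = (l k - t) • e + m k • w := by
      intro k
      module
    have e2 : a + l (n + 1) • e + m (n + 1) • w - (a + l n • e + m n • w) =
        (l (n + 1) - l n) • e + (m (n + 1) - m n) • w := by module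
    rw [e1, e1, e2, norm_comb he hew, norm_comb he hew, norm_comb he hew] at h
    exact h
  obtain ⟨-, ⟨L0, h0⟩, hw0⟩ := seq_lemma (u := fun n => (l n - r) ^ 2 + (m n * ‖w‖) ^ 2)
    (w := fun n => (l (n + 1) - l n) ^ 2 + ((m (n + 1) - m n) * ‖w‖) ^ 2)
    (fun _ => by positivity) (fun _ => by positivity) (hfej r le_rfl)
  obtain ⟨-, ⟨L1, h1⟩, -⟩ := seq_lemma (u := fun n => (l n - (r + 1)) ^ 2 + (m n * ‖w‖) ^ 2)
    (w := fun n => (l (n + 1) - l n) ^ 2 + ((m (n + 1) - m n) * ‖w‖) ^ 2)
    (fun _ => by positivity) (fun _ => by positivity) (hfej (r + 1) (by linarith))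
  have hl : Tendsto l atTop (𝓝 ((L0 - L1 + 1) / 2 + r)) := by
    refine ((((h0.sub h1).add_const 1).div_const 2).add_const r).congr fun n => ?_
    ring
  have hm1 : Tendsto (fun n => (m n * ‖w‖) ^ 2) atTop
      (𝓝 (L0 - ((L0 - L1 + 1) / 2 + r - r) ^ 2)) := by
    refine (h0.sub ((hl.sub_const r).pow 2)).congr fun n => ?_
    ring
  have hm2 : Tendsto (fun n => (m (n + 1) * ‖w‖ - m n * ‖w‖) ^ 2) atTop (𝓝 0) := by
    refine squeeze_zero (fun _ => sq_nonneg _) (fun n => ?_) hw0
    rw [← sub_mul]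
    linarith [sq_nonneg (l (n + 1) - l n)]
  obtain ⟨M, hM⟩ := real_conv (m := fun n => m n * ‖w‖) hm1 hm2
  refine ⟨a + ((L0 - L1 + 1) / 2 + r) • e + M • (‖w‖⁻¹ • w), ?_⟩
  refine ((tendsto_const_nhds.add (hl.smul_const e)).add (hM.smul_const (‖w‖⁻¹ • w))).congr
    fun n => ?_
  rw [hlm]
  congr 1
  by_cases h : w = 0
  · simp [h]
  · rw [smul_smul, mul_assoc, mul_inv_cancel₀ (norm_ne_zero_iff.2 h), mul_one]

theorem result (d : ℕ) (a b x : EuclideanSpace ℝ (Fin d)) (r s : ℝ) (hr : 0 ≤ r) (hs : 0 ≤ s) :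
    ∃ q, Tendsto (fun n : ℕ => (dr (closedBall a r) (closedBall b s))^[n] x +
      (n : ℝ) • minDisp (dr (closedBall a r) (closedBall b s))) atTop (𝓝 q) := by
  rcases le_or_gt ‖b - a‖ (r + s) with h | h
  · obtain ⟨p, hp1, hp2⟩ : ∃ p, p ∈ closedBall a r ∧ p ∈ closedBall b s := by
      obtain ⟨p, h1, h2⟩ := exists_dist_le_le (x := a) (z := b) hr hs
        (by rwa [dist_comm, dist_eq_norm, add_comm] )
      exact ⟨p, by rwa [mem_closedBall, dist_comm], by rwa [mem_closedBall]⟩
    exact conv_meet hr hs hp1 hp2 x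
  · have h0 : 0 < ‖b - a‖ := lt_of_le_of_lt (by linarith) h
    have e : b = a + ‖b - a‖ • (‖b - a‖⁻¹ • (b - a)) := by
      rw [smul_smul, mul_inv_cancel₀ h0.ne', one_smul, add_sub_cancel]
    have he : ‖‖b - a‖⁻¹ • (b - a)‖ = 1 := by
      rw [norm_smul, norm_inv, norm_norm, inv_mul_cancel₀ h0.ne']
    have := conv_disj (a := a) hr hs he h.le x
    rwa [← e] at this

end Pool.Agent.Results.MP_ef197a_an.Conv
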